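import Pool.Agent.Q95.CQ.Conv

/-!
# Laurent polynomiality and positivity of the cyclic q-binomial sum (MP_62f119_co, Q1)
-/

set_option autoImplicit false

namespace Pool.Agent.Results.MP_62f119_co.CyclicSumLaurent

open Polynomial

/-- The `q`-integer `[n] = (1 - q^n)/(1 - q)` in `ℚ(q)`. -/
noncomputable def qint (n : ℕ) : RatFunc ℚ := (1 - RatFunc.X ^ n) / (1 - RatFunc.X)

/-- The Gaussian coefficient `N` over `K` in `ℚ(q)`, zero when `K > N`. -/
noncomputable def gauss (N K : ℕ) : RatFunc ℚ :=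
  if K ≤ N then
    ∏ i ∈ Finset.Icc 1 K, (1 - RatFunc.X ^ (N - K + i)) / (1 - RatFunc.X ^ i)
  else 0

/-- `w_k = q^{j k² - (r+1) k} [2k] [k]^{2r}`. -/
noncomputable def w (j : ℤ) (r k : ℕ) : RatFunc ℚ :=
  RatFunc.X ^ (j * (k : ℤ) ^ 2 - ((r : ℤ) + 1) * (k : ℤ)) * qint (2 * k) * qint k ^ (2 * r)

/-- `P_k`, the product over `i = 1, …, m` of the Gaussian coefficients
`n_{i+1} + n_i` over `k + n_i`. -/
noncomputable def P (m : ℕ) (n : ℕ → ℕ) (k : ℕ) : RatFunc ℚ :=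
  ∏ i ∈ Finset.Icc 1 m, gauss (n (i + 1) + n i) (k + n i)

/-- The quotient `S` of the problem. -/
noncomputable def S (m : ℕ) (n : ℕ → ℕ) (j : ℤ) (a r : ℕ) : RatFunc ℚ :=
  (∑ k ∈ Finset.Icc a (n 1), w j r k * P m n k) /
    (qint (n m + a) * gauss (n m + n 1) (n 1 - a))

theorem qint_eq (n : ℕ) : qint n = Q95.CQ.qn RatFunc.X n := by
  rw [Q95.CQ.gen_X.qn_eq]; rfl

theorem gauss_aux (d K : ℕ) :
    ∏ i ∈ Finset.Icc 1 K, ((1 : RatFunc ℚ) - RatFunc.X ^ (d + i)) / (1 - RatFunc.X ^ i) =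
      Q95.CQ.qp RatFunc.X (K + d) / (Q95.CQ.qp RatFunc.X K * Q95.CQ.qp RatFunc.X d) := by
  have h := Q95.CQ.gen_X
  induction K with
  | zero =>
    have := h.qp_ne d
    simp only [Finset.Icc_eq_empty_of_lt (show (0 : ℕ) < 1 by norm_num), Finset.prod_empty,
      zero_add, Q95.CQ.qp_zero, one_mul]
    rw [div_self this]
  | succ K ih =>
    rw [Finset.prod_Icc_succ_top (by omega), ih, show K + 1 + d = K + d + 1 by ring,
      Q95.CQ.qp_succ, Q95.CQ.qp_succ, show d + (K + 1) = K + d + 1 by ring]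
    have h1 := h.qp_ne K
    have h2 := h.qp_ne d
    have h3 := h.sub_ne (Nat.succ_pos K)
    rw [Nat.succ_eq_add_one] at h3
    field_simp

theorem gauss_eq (N K : ℕ) : gauss N K = Q95.CQ.G RatFunc.X N K := by
  unfold gauss
  split_ifs with h
  · rw [gauss_aux, Q95.CQ.G_of_le _ h, show K + (N - K) = N by omega]
  · rw [Q95.CQ.G_of_lt _ (by omega)]

theorem S_eq (m : ℕ) (n : ℕ → ℕ) (hn : 0 < n (m + 1)) (hc : n (m + 1 + 1) = n 1) (j : ℤ)
    (a r : ℕ) (ha : a ≤ n 1) :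
    S (m + 1) n j a r =
      Q95.CQ.T RatFunc.X a (Q95.CQ.W RatFunc.X j r) (n 1) (Q95.CQ.L n 2 m) := by
  rw [← Q95.CQ.gen_X.conv m n hn hc j a r ha]
  unfold S w P
  simp only [qint_eq, gauss_eq]

/-- For all data of the problem, `S` is a Laurent polynomial in `q` with integer
coefficients, and when `0 ≤ j ≤ m` its coefficients are non-negative integers. -/
theorem result (m : ℕ) (hm : 1 ≤ m) (n : ℕ → ℕ) (hn : ∀ i, 1 ≤ i → i ≤ m → 0 < n i)
    (hcyc : n (m + 1) = n 1) (j : ℤ) (a r : ℕ) (ha : a ≤ n 1) :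
    (∃ (N : ℕ) (p : ℤ[X]), S m n j a r =
      algebraMap ℚ[X] (RatFunc ℚ) (p.map (Int.castRingHom ℚ)) / RatFunc.X ^ N) ∧
    (0 ≤ j → j ≤ (m : ℤ) → ∃ (N : ℕ) (p : ℕ[X]), S m n j a r =
      algebraMap ℚ[X] (RatFunc ℚ) (p.map (Nat.castRingHom ℚ)) / RatFunc.X ^ N) := by
  obtain ⟨m, rfl⟩ : ∃ M, m = M + 1 := ⟨m - 1, by omega⟩
  have hpos := hn (m + 1) hm le_rfl
  have h := Q95.CQ.gen_X
  rw [S_eq m n hpos hcyc j a r ha]
  constructor
  · have hX : ((algebraMap ℚ[X] (RatFunc ℚ)).comp (Polynomial.mapRingHom (Int.castRingHom ℚ)))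
        X = RatFunc.X := by
      simp
    have hR := h.mainL (Q95.CQ.Lau
      ((algebraMap ℚ[X] (RatFunc ℚ)).comp (Polynomial.mapRingHom (Int.castRingHom ℚ))))
      (by
        have := Q95.CQ.Lau_X
          ((algebraMap ℚ[X] (RatFunc ℚ)).comp (Polynomial.mapRingHom (Int.castRingHom ℚ)))
        rwa [hX] at this)
      (by
        have := Q95.CQ.Lau_inv
          ((algebraMap ℚ[X] (RatFunc ℚ)).comp (Polynomial.mapRingHom (Int.castRingHom ℚ)))
          (by rw [hX]; exact RatFunc.X_ne_zero)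
        rwa [hX] at this)
      (Q95.CQ.Lau_neg _) a r j (Q95.CQ.L n 2 m) (n 1)
    obtain ⟨N, p, hp⟩ := hR
    rw [hX] at hp
    refine ⟨N, p, ?_⟩
    rw [eq_div_iff (pow_ne_zero _ RatFunc.X_ne_zero), hp]
    simp
  · intro hj0 hjm
    obtain ⟨i, rfl⟩ : ∃ i : ℕ, j = (i : ℤ) := ⟨j.toNat, by omega⟩
    have hX : ((algebraMap ℚ[X] (RatFunc ℚ)).comp (Polynomial.mapRingHom (Nat.castRingHom ℚ)))
        X = RatFunc.X := by
      simp
    have hR := h.mainP (Q95.CQ.Lau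
      ((algebraMap ℚ[X] (RatFunc ℚ)).comp (Polynomial.mapRingHom (Nat.castRingHom ℚ))))
      (by
        have := Q95.CQ.Lau_X
          ((algebraMap ℚ[X] (RatFunc ℚ)).comp (Polynomial.mapRingHom (Nat.castRingHom ℚ)))
        rwa [hX] at this)
      (by
        have := Q95.CQ.Lau_inv
          ((algebraMap ℚ[X] (RatFunc ℚ)).comp (Polynomial.mapRingHom (Nat.castRingHom ℚ)))
          (by rw [hX]; exact RatFunc.X_ne_zero)
        rwa [hX] at this)
      a r (Q95.CQ.L n 2 m) i (by rw [Q95.CQ.L_length]; omega) (n 1)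
    obtain ⟨N, p, hp⟩ := hR
    rw [hX] at hp
    refine ⟨N, p, ?_⟩
    rw [eq_div_iff (pow_ne_zero _ RatFunc.X_ne_zero), hp]
    simp

end Pool.Agent.Results.MP_62f119_co.CyclicSumLaurent
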